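import Mathlib
import Pool.Agent.V11279.BesT

/-! Besicovitch cylindrical transformations which are `γ`-Hölder for all `γ < 1`, over the rotations by
badly approximable numbers. -/

set_option autoImplicit false

open Filter Set Topology

noncomputable section

namespace Pool.Agent.K6.H72.HB

open Pool.Agent.V11279.BesT

abbrev T := UnitAddCircle

/-- the tent function of width `w` -/
def u (w : ℝ) (x : T) : ℝ := max 0 (1 - ‖x‖ / w)

lemma u_nonneg (w : ℝ) (x : T) : 0 ≤ u w x := le_max_left _ _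

lemma u_le_one {w : ℝ} (hw : 0 < w) (x : T) : u w x ≤ 1 := by
  refine max_le zero_le_one ?_
  have : 0 ≤ ‖x‖ / w := by positivity
  linarith

lemma u_zero (w : ℝ) : u w 0 = 1 := by simp [u]

lemma u_eq_zero {w : ℝ} (hw : 0 < w) {x : T} (h : w ≤ ‖x‖) : u w x = 0 := by
  refine max_eq_left ?_
  have : 1 ≤ ‖x‖ / w := (one_le_div hw).2 h
  linarith

lemma u_lip {w : ℝ} (hw : 0 < w) (x y : T) : |u w x - u w y| ≤ ‖x - y‖ / w := by
  have h1 : |u w x - u w y| ≤ |(1 - ‖x‖ / w) - (1 - ‖y‖ / w)| := by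
    unfold u
    have := abs_max_sub_max_le_abs (1 - ‖x‖ / w) (1 - ‖y‖ / w) 0
    rwa [max_comm _ (0 : ℝ), max_comm _ (0 : ℝ)] at this
  refine h1.trans ?_
  have h2 : (1 - ‖x‖ / w) - (1 - ‖y‖ / w) = -((‖x‖ - ‖y‖) / w) := by ring
  rw [h2, abs_neg, abs_div, abs_of_pos hw]
  exact div_le_div_of_nonneg_right (abs_norm_sub_norm_le x y) hw.le

/-- `a` is badly approximable with constant `c` -/
def Bad (a : T) (c : ℝ) : Prop := ∀ n : ℤ, n ≠ 0 → c / |(n : ℝ)| ≤ ‖n • a‖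

section single

variable {a : T} {w : ℝ} {J : Finset ℤ}

lemma card_supp (hw : 0 < w) (hJ : ∀ i ∈ J, ∀ j ∈ J, i ≠ j → 2 * w ≤ ‖(i - j) • a‖) (x : T) :
    (J.filter fun j => u w (x - j • a) ≠ 0).card ≤ 1 := by
  rw [Finset.card_le_one]
  intro i hi j hj
  rw [Finset.mem_filter] at hi hj
  by_contra hne
  have h1 := hJ i hi.1 j hj.1 hne
  have h2 : ‖x - i • a‖ < w := by
    by_contra h; exact hi.2 (u_eq_zero hw (not_lt.1 h))
  have h3 : ‖x - j • a‖ < w := by
    by_contra h; exact hj.2 (u_eq_zero hw (not_lt.1 h))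
  have h4 : (i - j) • a = (x - j • a) - (x - i • a) := by
    rw [sub_smul]; abel
  rw [h4] at h1
  have h5 := norm_sub_le (x - j • a) (x - i • a)
  linarith

lemma sum_lip (hw : 0 < w) (hJ : ∀ i ∈ J, ∀ j ∈ J, i ≠ j → 2 * w ≤ ‖(i - j) • a‖) {σ : ℤ → ℝ}
    (hσ : ∀ j, |σ j| ≤ 1) (x y : T) :
    |∑ j ∈ J, σ j * u w (x - j • a) - ∑ j ∈ J, σ j * u w (y - j • a)| ≤ 2 * (‖x - y‖ / w) := by
  rw [← Finset.sum_sub_distrib]
  refine (Finset.abs_sum_le_sum_abs _ _).trans ?_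
  obtain ⟨Sx, hSx⟩ : ∃ S, S = J.filter fun j => u w (x - j • a) ≠ 0 := ⟨_, rfl⟩
  obtain ⟨Sy, hSy⟩ : ∃ S, S = J.filter fun j => u w (y - j • a) ≠ 0 := ⟨_, rfl⟩
  have hcx : Sx.card ≤ 1 := by rw [hSx]; exact card_supp hw hJ x
  have hcy : Sy.card ≤ 1 := by rw [hSy]; exact card_supp hw hJ y
  have hsub : Sx ∪ Sy ⊆ J := by
    rw [hSx, hSy]
    exact Finset.union_subset (Finset.filter_subset _ _) (Finset.filter_subset _ _)
  have h0 : ∀ j ∈ J, j ∉ Sx ∪ Sy → |σ j * u w (x - j • a) - σ j * u w (y - j • a)| = 0 := by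
    intro j hj hn
    rw [Finset.mem_union, not_or, hSx, hSy, Finset.mem_filter, Finset.mem_filter] at hn
    have h1 : u w (x - j • a) = 0 := by
      by_contra h; exact hn.1 ⟨hj, h⟩
    have h2 : u w (y - j • a) = 0 := by
      by_contra h; exact hn.2 ⟨hj, h⟩
    rw [h1, h2]; simp
  rw [← Finset.sum_subset hsub h0]
  have hterm : ∀ j ∈ Sx ∪ Sy, |σ j * u w (x - j • a) - σ j * u w (y - j • a)| ≤ ‖x - y‖ / w := by
    intro j _
    rw [← mul_sub, abs_mul]
    have h1 := u_lip hw (x - j • a) (y - j • a)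
    rw [sub_sub_sub_cancel_right] at h1
    calc |σ j| * |u w (x - j • a) - u w (y - j • a)| ≤ 1 * (‖x - y‖ / w) :=
          mul_le_mul (hσ j) h1 (abs_nonneg _) zero_le_one
      _ = ‖x - y‖ / w := one_mul _
  refine (Finset.sum_le_card_nsmul _ _ _ hterm).trans ?_
  rw [nsmul_eq_mul]
  have h3 : ((Sx ∪ Sy).card : ℝ) ≤ 2 := by
    have := Finset.card_union_le Sx Sy
    exact_mod_cast (by omega : (Sx ∪ Sy).card ≤ 2)
  exact mul_le_mul_of_nonneg_right h3 (by positivity)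

lemma sum_bd (hw : 0 < w) (hJ : ∀ i ∈ J, ∀ j ∈ J, i ≠ j → 2 * w ≤ ‖(i - j) • a‖) {σ : ℤ → ℝ}
    {s : ℝ} (hs : 0 ≤ s) (hσ : ∀ j, |σ j| ≤ s) (x : T) : |∑ j ∈ J, σ j * u w (x - j • a)| ≤ s := by
  refine (Finset.abs_sum_le_sum_abs _ _).trans ?_
  obtain ⟨Sx, hSx⟩ : ∃ S, S = J.filter fun j => u w (x - j • a) ≠ 0 := ⟨_, rfl⟩
  have hcx : Sx.card ≤ 1 := by rw [hSx]; exact card_supp hw hJ x
  have hsub : Sx ⊆ J := by rw [hSx]; exact Finset.filter_subset _ _
  have h0 : ∀ j ∈ J, j ∉ Sx → |σ j * u w (x - j • a)| = 0 := by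
    intro j hj hn
    rw [hSx, Finset.mem_filter] at hn
    have h1 : u w (x - j • a) = 0 := by
      by_contra h; exact hn ⟨hj, h⟩
    rw [h1]; simp
  rw [← Finset.sum_subset hsub h0]
  have hterm : ∀ j ∈ Sx, |σ j * u w (x - j • a)| ≤ s := by
    intro j _
    rw [abs_mul, abs_of_nonneg (u_nonneg _ _)]
    calc |σ j| * u w (x - j • a) ≤ s * 1 :=
          mul_le_mul (hσ j) (u_le_one hw _) (u_nonneg _ _) hs
      _ = s := mul_one _
  refine (Finset.sum_le_card_nsmul _ _ _ hterm).trans ?_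
  rw [nsmul_eq_mul]
  have h3 : (Sx.card : ℝ) ≤ 1 := by exact_mod_cast hcx
  calc (Sx.card : ℝ) * s ≤ 1 * s := mul_le_mul_of_nonneg_right h3 hs
    _ = s := one_mul _

end single

/-- coefficients -/
def co (N : ℕ) (j : ℤ) : ℝ := max 0 ((N : ℝ) - |(j : ℝ)|)

lemma co_nonneg (N : ℕ) (j : ℤ) : 0 ≤ co N j := le_max_left _ _

lemma co_le (N : ℕ) (j : ℤ) : co N j ≤ N := by
  refine max_le (Nat.cast_nonneg _) ?_
  have := abs_nonneg (j : ℝ)
  linarith

lemma co_zero (N : ℕ) : co N 0 = N := by simp [co]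

lemma co_eq_zero {N : ℕ} {j : ℤ} (h : (N : ℤ) ≤ |j|) : co N j = 0 := by
  refine max_eq_left ?_
  have h1 : ((N : ℤ) : ℝ) ≤ ((|j| : ℤ) : ℝ) := by exact_mod_cast h
  rw [Int.cast_abs] at h1
  push_cast at h1
  linarith

lemma co_diff (N : ℕ) (j : ℤ) : |co N j - co N (j + 1)| ≤ 1 := by
  have h1 : |co N j - co N (j + 1)| ≤ |((N : ℝ) - |(j : ℝ)|) - ((N : ℝ) - |((j + 1 : ℤ) : ℝ)|)| := by
    unfold co
    have := abs_max_sub_max_le_abs ((N : ℝ) - |(j : ℝ)|) ((N : ℝ) - |((j + 1 : ℤ) : ℝ)|) 0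
    rwa [max_comm _ (0 : ℝ), max_comm _ (0 : ℝ)] at this
  refine h1.trans ?_
  have h2 : ((N : ℝ) - |(j : ℝ)|) - ((N : ℝ) - |((j + 1 : ℤ) : ℝ)|) =
      |((j + 1 : ℤ) : ℝ)| - |(j : ℝ)| := by ring
  rw [h2]
  refine (abs_abs_sub_abs_le _ _).trans ?_
  push_cast
  simp

/-- the tower function -/
def Vf (N : ℕ) (w : ℝ) (a : T) (x : T) : ℝ :=
  ∑ j ∈ Finset.Icc (-(N : ℤ)) N, co N j * u w (x - j • a)

/-- its coboundary -/
def Bf (N : ℕ) (w : ℝ) (a : T) (x : T) : ℝ :=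
  ∑ j ∈ Finset.Icc (-(N : ℤ)) N, (co N j - co N (j + 1)) * u w (x - j • a)

lemma Bf_eq (N : ℕ) (w : ℝ) (a x : T) : Bf N w a x = Vf N w a x - Vf N w a (x + a) := by
  have h1 : Vf N w a (x + a) = ∑ i ∈ Finset.Icc (-(N : ℤ)) N, co N (i + 1) * u w (x - i • a) := by
    unfold Vf
    have e1 : ∑ j ∈ Finset.Icc (-(N : ℤ)) N, co N j * u w (x + a - j • a) =
        ∑ i ∈ Finset.Icc (-(N : ℤ) - 1) (N - 1), co N (i + 1) * u w (x - i • a) := by
      refine Finset.sum_bij' (fun j _ => j - 1) (fun i _ => i + 1) ?_ ?_ ?_ ?_ ?_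
      · intro j hj; rw [Finset.mem_Icc] at hj ⊢; omega
      · intro i hi; rw [Finset.mem_Icc] at hi ⊢; omega
      · intro j _; ring
      · intro i _; ring
      · intro j _
        rw [sub_add_cancel, sub_smul, one_smul]
        congr 2
        abel
    rw [e1]
    have e2 : ∑ i ∈ Finset.Icc (-(N : ℤ) - 1) (N - 1), co N (i + 1) * u w (x - i • a) =
        ∑ i ∈ Finset.Icc (-(N : ℤ) - 1) N, co N (i + 1) * u w (x - i • a) := by
      refine Finset.sum_subset (Finset.Icc_subset_Icc_right (by omega)) ?_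
      intro i hi hn
      rw [Finset.mem_Icc] at hi hn
      have h2 : i = N := by omega
      rw [co_eq_zero (by rw [h2]; exact (by omega : (N : ℤ) ≤ N + 1).trans (le_abs_self _)), zero_mul]
    have e3 : ∑ i ∈ Finset.Icc (-(N : ℤ)) N, co N (i + 1) * u w (x - i • a) =
        ∑ i ∈ Finset.Icc (-(N : ℤ) - 1) N, co N (i + 1) * u w (x - i • a) := by
      refine Finset.sum_subset (Finset.Icc_subset_Icc_left (by omega)) ?_
      intro i hi hn
      rw [Finset.mem_Icc] at hi hn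
      have h2 : i = -(N : ℤ) - 1 := by omega
      rw [co_eq_zero (by rw [h2, sub_add_cancel, abs_neg]; exact le_abs_self _), zero_mul]
    rw [e2, e3]
  rw [h1]
  unfold Bf Vf
  rw [← Finset.sum_sub_distrib]
  exact Finset.sum_congr rfl fun j _ => by ring

section level

variable {a : T} {c : ℝ}

/-- widths -/
def wd (c : ℝ) (k : ℕ) : ℝ := c / 2 ^ (k + 2)

lemma wd_pos (hc : 0 < c) (k : ℕ) : 0 < wd c k := by unfold wd; positivity

lemma sep (hc : 0 < c) (ha : Bad a c) (k : ℕ) : ∀ i ∈ Finset.Icc (-((2 ^ k : ℕ) : ℤ)) (2 ^ k : ℕ),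
    ∀ j ∈ Finset.Icc (-((2 ^ k : ℕ) : ℤ)) (2 ^ k : ℕ), i ≠ j → 2 * wd c k ≤ ‖(i - j) • a‖ := by
  intro i hi j hj hij
  refine le_trans ?_ (ha (i - j) (sub_ne_zero.2 hij))
  rw [Finset.mem_Icc] at hi hj
  have h1 : |(i - j)| ≤ 2 ^ (k + 1) := by
    rw [abs_le]
    have : ((2 ^ k : ℕ) : ℤ) = 2 ^ k := by push_cast; rfl
    rw [pow_succ]
    constructor <;> omega
  have h2 : |((i - j : ℤ) : ℝ)| ≤ 2 ^ (k + 1) := by exact_mod_cast h1
  have h3 : 0 < |((i - j : ℤ) : ℝ)| := abs_pos.2 (by exact_mod_cast sub_ne_zero.2 hij)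
  unfold wd
  rw [pow_succ 2 (k + 1)]
  have h4 : 2 * (c / (2 ^ (k + 1) * 2)) = c / 2 ^ (k + 1) := by field_simp
  rw [h4]
  exact div_le_div_of_nonneg_left hc.le h3 h2

/-- level functions -/
def Vk (a : T) (c : ℝ) (k : ℕ) (x : T) : ℝ := Vf (2 ^ k) (wd c k) a x
def Bk (a : T) (c : ℝ) (k : ℕ) (x : T) : ℝ := Bf (2 ^ k) (wd c k) a x

lemma Bk_eq (k : ℕ) (x : T) : Bk a c k x = Vk a c k x - Vk a c k (x + a) := Bf_eq _ _ _ _

lemma Bk_bd (hc : 0 < c) (ha : Bad a c) (k : ℕ) (x : T) : |Bk a c k x| ≤ 1 :=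
  sum_bd (wd_pos hc k) (sep hc ha k) zero_le_one (fun j => co_diff _ j) x

lemma Bk_lip (hc : 0 < c) (ha : Bad a c) (k : ℕ) (x y : T) :
    |Bk a c k x - Bk a c k y| ≤ 2 * (‖x - y‖ / wd c k) :=
  sum_lip (wd_pos hc k) (sep hc ha k) (fun j => co_diff _ j) x y

lemma Vk_le (hc : 0 < c) (ha : Bad a c) (k : ℕ) (x : T) : Vk a c k x ≤ 2 ^ k := by
  have h := sum_bd (wd_pos hc k) (sep hc ha k) (s := ((2 ^ k : ℕ) : ℝ)) (by positivity)
    (σ := co (2 ^ k)) (fun j => by rw [abs_of_nonneg (co_nonneg _ _)]; exact co_le _ _) x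
  have h2 := (le_abs_self _).trans h
  push_cast at h2
  exact h2

lemma Vk_orbit (hc : 0 < c) (ha : Bad a c) (k : ℕ) {n : ℤ} (hn : |n| ≤ 2 ^ (k + 1)) :
    Vk a c k (n • a) = co (2 ^ k) n := by
  unfold Vk Vf
  have hz : ∀ j ∈ Finset.Icc (-((2 ^ k : ℕ) : ℤ)) (2 ^ k : ℕ), j ≠ n →
      co (2 ^ k) j * u (wd c k) (n • a - j • a) = 0 := by
    intro j hj hjn
    rw [Finset.mem_Icc] at hj
    have h0 : n - j ≠ 0 := sub_ne_zero.2 (Ne.symm hjn)
    have h1 : |n - j| ≤ 2 ^ (k + 2) := by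
      have e1 : ((2 ^ k : ℕ) : ℤ) = 2 ^ k := by push_cast; rfl
      have e2 : (2 : ℤ) ^ (k + 1) = 2 * 2 ^ k := by ring
      have e3 : (2 : ℤ) ^ (k + 2) = 4 * 2 ^ k := by ring
      have e4 : (0 : ℤ) < 2 ^ k := by positivity
      rw [abs_le] at hn ⊢
      rw [e1] at hj
      rw [e2] at hn
      rw [e3]
      constructor <;> linarith [hj.1, hj.2, hn.1, hn.2]
    have h2 : |((n - j : ℤ) : ℝ)| ≤ 2 ^ (k + 2) := by exact_mod_cast h1
    have h3 : 0 < |((n - j : ℤ) : ℝ)| := abs_pos.2 (by exact_mod_cast h0)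
    have h4 : wd c k ≤ ‖n • a - j • a‖ := by
      rw [← sub_smul]
      refine le_trans ?_ (ha (n - j) h0)
      unfold wd
      exact div_le_div_of_nonneg_left hc.le h3 h2
    rw [u_eq_zero (wd_pos hc k) h4, mul_zero]
  by_cases hmem : n ∈ Finset.Icc (-((2 ^ k : ℕ) : ℤ)) (2 ^ k : ℕ)
  · rw [Finset.sum_eq_single_of_mem n hmem hz, sub_self, u_zero, mul_one]
  · rw [Finset.sum_eq_zero fun j hj => hz j hj (fun h => hmem (h ▸ hj))]
    rw [co_eq_zero]
    rw [Finset.mem_Icc, not_and_or, not_le, not_le] at hmem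
    rcases hmem with h | h
    · exact le_trans (by omega) (neg_le_abs n)
    · exact h.le.trans (le_abs_self n)

end level

/-! ### the function -/

/-- coefficients of the series -/
def ep (k : ℕ) : ℝ := (k + 1) / 2 ^ k

lemma ep_pos (k : ℕ) : 0 < ep k := by unfold ep; positivity

/-- the function -/
def ph (a : T) (c : ℝ) (x : T) : ℝ := ∑' k, ep k * Bk a c k x

lemma summable_pow {s : ℝ} (hs0 : 0 ≤ s) (hs : s < 1) : Summable fun k : ℕ => ((k : ℝ) + 1) * s ^ k := by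
  have h1 := summable_pow_mul_geometric_of_norm_lt_one (R := ℝ) 1 (r := s) (by
    rw [Real.norm_eq_abs, abs_of_nonneg hs0]; exact hs)
  have h2 := summable_geometric_of_lt_one hs0 hs
  refine (h1.add h2).congr fun k => ?_
  rw [pow_one]; ring

lemma summable_ep : Summable ep := by
  refine (summable_pow (s := 1 / 2) (by norm_num) (by norm_num)).congr fun k => ?_
  unfold ep
  rw [div_pow, one_pow]
  ring

section main

variable {a : T} {c : ℝ}

lemma summable_B (hc : 0 < c) (ha : Bad a c) (x : T) : Summable fun k => ep k * Bk a c k x := by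
  refine Summable.of_norm_bounded summable_ep fun k => ?_
  rw [Real.norm_eq_abs, abs_mul, abs_of_pos (ep_pos k)]
  have h1 := Bk_bd hc ha k x
  have h2 := ep_pos k
  nlinarith

/-- **Hölder continuity** -/
theorem holder (hc : 0 < c) (ha : Bad a c) {γ : ℝ} (hγ0 : 0 < γ) (hγ1 : γ < 1) :
    ∃ C : ℝ, 0 ≤ C ∧ ∀ x y : T, |ph a c x - ph a c y| ≤ C * ‖x - y‖ ^ γ := by
  have hq : Summable fun k : ℕ => ep k * (2 * (1 / wd c k) ^ γ) := by
    have hs : (2 : ℝ) ^ (γ - 1) < 1 := by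
      refine Real.rpow_lt_one_of_one_lt_of_neg (by norm_num) (by linarith)
    have h1 := (summable_pow (s := (2 : ℝ) ^ (γ - 1)) (by positivity) hs).mul_left
      (2 * (4 / c) ^ γ)
    refine h1.congr fun k => ?_
    unfold ep wd
    have e1 : (1 : ℝ) / (c / 2 ^ (k + 2)) = (4 / c) * 2 ^ k := by
      rw [pow_add]; field_simp; norm_num
    rw [e1, Real.mul_rpow (by positivity) (by positivity)]
    have e2 : ((2 : ℝ) ^ k) ^ γ = (2 ^ (γ - 1)) ^ k * 2 ^ k := by
      rw [← Real.rpow_natCast, ← Real.rpow_natCast, ← Real.rpow_mul (by norm_num),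
        ← Real.rpow_mul (by norm_num), ← Real.rpow_add (by norm_num)]
      congr 1
      ring
    rw [e2]
    field_simp
  refine ⟨∑' k, ep k * (2 * (1 / wd c k) ^ γ), tsum_nonneg fun k => by
    have := ep_pos k
    have := wd_pos hc k
    positivity, fun x y => ?_⟩
  have hkey : ∀ k, |Bk a c k x - Bk a c k y| ≤ 2 * (1 / wd c k) ^ γ * ‖x - y‖ ^ γ := by
    intro k
    have hw := wd_pos hc k
    have hd : 0 ≤ ‖x - y‖ / wd c k := by positivity
    have e1 : (1 / wd c k) ^ γ * ‖x - y‖ ^ γ = (‖x - y‖ / wd c k) ^ γ := by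
      rw [← Real.mul_rpow (by positivity) (norm_nonneg _)]
      congr 1
      ring
    rw [mul_assoc, e1]
    rcases le_or_gt (‖x - y‖ / wd c k) 1 with h | h
    · have h1 := Bk_lip hc ha k x y
      have h2 : ‖x - y‖ / wd c k ≤ (‖x - y‖ / wd c k) ^ γ := by
        rcases hd.eq_or_lt with h0 | h0
        · rw [← h0, Real.zero_rpow hγ0.ne']
        · calc ‖x - y‖ / wd c k = (‖x - y‖ / wd c k) ^ (1 : ℝ) := (Real.rpow_one _).symm
            _ ≤ (‖x - y‖ / wd c k) ^ γ := Real.rpow_le_rpow_of_exponent_ge h0 h hγ1.le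
      linarith
    · have h1 := Bk_bd hc ha k x
      have h2 := Bk_bd hc ha k y
      have h3 := abs_sub (Bk a c k x) (Bk a c k y)
      have h4 : 1 ≤ (‖x - y‖ / wd c k) ^ γ := Real.one_le_rpow h.le hγ0.le
      linarith
  have h1 := summable_B hc ha x
  have h2 := summable_B hc ha y
  unfold ph
  rw [← h1.tsum_sub h2, ← tsum_mul_right]
  have hb : ∀ k, ‖ep k * Bk a c k x - ep k * Bk a c k y‖ ≤
      ep k * (2 * (1 / wd c k) ^ γ) * ‖x - y‖ ^ γ := by
    intro k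
    rw [← mul_sub, Real.norm_eq_abs, abs_mul, abs_of_pos (ep_pos k)]
    have := mul_le_mul_of_nonneg_left (hkey k) (ep_pos k).le
    linarith
  exact tsum_of_norm_bounded (hq.mul_right _).hasSum hb

lemma continuous_ph (hc : 0 < c) (ha : Bad a c) : Continuous (ph a c) := by
  obtain ⟨C, hC, h⟩ := holder hc ha (γ := 1 / 2) (by norm_num) (by norm_num)
  rw [continuous_iff_continuousAt]
  intro x
  rw [ContinuousAt, tendsto_iff_dist_tendsto_zero]
  have h1 : Tendsto (fun y : T => C * ‖y - x‖ ^ (1 / 2 : ℝ)) (𝓝 x) (𝓝 0) := by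
    have h2 : Continuous fun y : T => C * ‖y - x‖ ^ (1 / 2 : ℝ) :=
      continuous_const.mul ((continuous_id.sub continuous_const).norm.rpow_const
        fun _ => Or.inr (by norm_num))
    have h3 := h2.tendsto x
    rwa [sub_self, norm_zero, Real.zero_rpow (by norm_num), mul_zero] at h3
  exact squeeze_zero (fun _ => dist_nonneg) (fun y => by rw [Real.dist_eq]; exact h y x) h1

/-- Birkhoff sums -/
lemma birkhoff (hc : 0 < c) (ha : Bad a c) (n : ℤ) : ∀ x : T,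
    (Summable fun k => ep k * (Vk a c k x - Vk a c k (x + n • a))) ∧
    S a (ph a c) n x = ∑' k, ep k * (Vk a c k x - Vk a c k (x + n • a)) := by
  have hS1 : ∀ (n : ℤ) (x : T), S a (ph a c) (n + 1) x = S a (ph a c) n x + ph a c (x + n • a) := by
    intro n x
    rw [add_comm n 1, S_add, S_one]
  have hstep : ∀ (n : ℤ) (x : T) (k : ℕ), ep k * (Vk a c k x - Vk a c k (x + (n + 1) • a)) =
      ep k * (Vk a c k x - Vk a c k (x + n • a)) + ep k * Bk a c k (x + n • a) := by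
    intro n x k
    rw [Bk_eq, add_smul, one_smul, ← add_assoc]
    ring
  induction n using Int.induction_on with
  | zero =>
    intro x
    have h0 : (fun k => ep k * (Vk a c k x - Vk a c k (x + (0 : ℤ) • a))) = fun _ => 0 := by
      funext k
      rw [zero_smul, add_zero, sub_self, mul_zero]
    rw [h0]
    exact ⟨summable_zero, by rw [tsum_zero, S_zero]⟩
  | succ n ih =>
    intro x
    obtain ⟨h1, h2⟩ := ih x
    have h3 := summable_B hc ha (x + (n : ℤ) • a)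
    have h4 : (fun k => ep k * (Vk a c k x - Vk a c k (x + ((n : ℤ) + 1) • a))) = fun k =>
        ep k * (Vk a c k x - Vk a c k (x + (n : ℤ) • a)) + ep k * Bk a c k (x + (n : ℤ) • a) :=
      funext fun k => hstep n x k
    rw [h4]
    refine ⟨h1.add h3, ?_⟩
    rw [hS1, h2, h1.tsum_add h3]
    rfl
  | pred n ih =>
    intro x
    obtain ⟨h1, h2⟩ := ih x
    have h3 := summable_B hc ha (x + (-(n : ℤ) - 1) • a)
    have h4 : (fun k => ep k * (Vk a c k x - Vk a c k (x + (-(n : ℤ) - 1) • a))) = fun k =>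
        ep k * (Vk a c k x - Vk a c k (x + (-(n : ℤ)) • a)) -
          ep k * Bk a c k (x + (-(n : ℤ) - 1) • a) := by
      funext k
      have := hstep (-(n : ℤ) - 1) x k
      rw [sub_add_cancel] at this
      rw [this]
      ring
    rw [h4]
    refine ⟨h1.sub h3, ?_⟩
    have h5 := hS1 (-(n : ℤ) - 1) x
    rw [sub_add_cancel] at h5
    rw [h1.tsum_sub h3, ← h2, h5]
    show _ = _ - ph a c _
    ring

/-- growth of the Birkhoff sums over `0` -/
lemma growth (hc : 0 < c) (ha : Bad a c) (k : ℕ) {n : ℤ} (h1 : 2 ^ k ≤ |n|) (h2 : |n| ≤ 2 ^ (k + 1)) :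
    (k : ℝ) + 1 ≤ S a (ph a c) n 0 := by
  obtain ⟨h3, h4⟩ := birkhoff hc ha n 0
  rw [h4]
  have hV0 : ∀ k, Vk a c k 0 = 2 ^ k := by
    intro k
    have := Vk_orbit hc ha k (n := 0) (by rw [abs_zero]; positivity)
    rw [zero_smul] at this
    rw [this, co_zero]
    push_cast
    rfl
  have hnn : ∀ k, 0 ≤ ep k * (Vk a c k 0 - Vk a c k (0 + n • a)) := by
    intro k
    refine mul_nonneg (ep_pos k).le ?_
    rw [hV0]
    have := Vk_le hc ha k (0 + n • a)
    linarith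
  have hk : ep k * (Vk a c k 0 - Vk a c k (0 + n • a)) = (k : ℝ) + 1 := by
    rw [hV0, zero_add, Vk_orbit hc ha k h2, co_eq_zero (by push_cast; exact h1), sub_zero]
    unfold ep
    field_simp
  rw [← hk]
  exact h3.le_tsum k fun j _ => hnn j

lemma tendsto_S (hc : 0 < c) (ha : Bad a c) :
    Tendsto (fun n : ℤ => S a (ph a c) n 0) cofinite atTop := by
  rw [tendsto_atTop]
  intro R
  obtain ⟨K, hK⟩ := exists_nat_ge R
  have hfin : {n : ℤ | ¬ R ≤ S a (ph a c) n 0} ⊆ Icc (-(2 ^ K : ℤ)) (2 ^ K) := by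
    intro n hn
    by_contra hout
    apply hn
    have hbig : 2 ^ K < |n| := by
      rw [mem_Icc, not_and_or, not_le, not_le] at hout
      rcases hout with h | h
      · exact lt_of_lt_of_le (by linarith) (neg_le_abs n)
      · exact h.trans_le (le_abs_self n)
    have hn0 : n.natAbs ≠ 0 := by
      intro h0
      rw [Int.natAbs_eq_zero] at h0
      rw [h0, abs_zero] at hbig
      have : (0 : ℤ) < 2 ^ K := by positivity
      omega
    obtain ⟨k, hk⟩ : ∃ k, k = Nat.log 2 n.natAbs := ⟨_, rfl⟩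
    have e1 : 2 ^ k ≤ n.natAbs := by rw [hk]; exact Nat.pow_log_le_self 2 hn0
    have e2 : n.natAbs < 2 ^ (k + 1) := by rw [hk]; exact Nat.lt_pow_succ_log_self (by norm_num) _
    have e3 : (2 : ℤ) ^ k ≤ |n| := by
      rw [Int.abs_eq_natAbs]; exact_mod_cast e1
    have e4 : |n| ≤ 2 ^ (k + 1) := by
      rw [Int.abs_eq_natAbs]; exact_mod_cast e2.le
    have e5 := growth hc ha k e3 e4
    have e6 : K < k + 1 := by
      have h7 : (2 : ℤ) ^ K < 2 ^ (k + 1) := hbig.trans_le e4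
      exact (pow_lt_pow_iff_right₀ (by norm_num : (1 : ℤ) < 2)).1 h7
    have e7 : (K : ℝ) ≤ k := by exact_mod_cast Nat.lt_succ_iff.1 e6
    linarith
  exact (finite_Icc _ _).subset hfin

end main

/-! ### transitivity -/

theorem isBesicovitch {α : ℝ} {c : ℝ} (hc : 0 < c) (ha : Bad (α : T) c) :
    Irrational α ∧ IsBesicovitch (α : T) (ph (α : T) c) := by
  have hirr : Irrational α := by
    rintro ⟨q, hq⟩
    have h1 := ha (q.den : ℤ) (by exact_mod_cast q.den_nz)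
    have h2 : (q.den : ℤ) • (α : T) = 0 := by
      rw [← hq, ← AddCircle.coe_zsmul]
      have h3 : ((q.den : ℤ) • (q : ℝ)) = ((q.num : ℤ) : ℝ) := by
        rw [zsmul_eq_mul]
        have : (q : ℝ) = q.num / q.den := by exact_mod_cast (Rat.num_div_den q).symm
        have h4 : (q.den : ℝ) ≠ 0 := by exact_mod_cast q.den_nz
        rw [this]
        push_cast
        field_simp
      rw [h3]
      have h5 : (((q.num : ℤ) : ℝ) : T) = q.num • ((1 : ℝ) : T) := by
        rw [← AddCircle.coe_zsmul, zsmul_eq_mul, mul_one]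
      rw [h5, AddCircle.coe_period, smul_zero]
    rw [h2, norm_zero] at h1
    have h3 : 0 < c / |(((q.den : ℤ) : ℤ) : ℝ)| := by
      have : (q.den : ℝ) ≠ 0 := by exact_mod_cast q.den_nz
      have : 0 < |(((q.den : ℤ) : ℤ) : ℝ)| := abs_pos.2 (by exact_mod_cast this)
      positivity
    linarith
  refine ⟨hirr, ?_⟩
  -- good denominators
  have hD : ∀ j : ℕ, ∃ (p q : ℤ), 0 < q ∧ q ≤ (j + 1 : ℕ) ∧ |(q : ℝ) * α - p| ≤ 1 / ((j + 1 : ℕ) + 1) := by
    intro j
    obtain ⟨p, q, h1, h2, h3⟩ := Real.exists_int_int_abs_mul_sub_le α (Nat.succ_pos j)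
    exact ⟨p, q, h1, h2, h3⟩
  choose p q hq0 hqj hpq using hD
  have hqa : ∀ j, ((q j : ℤ) • (α : T)) = (((q j : ℝ) * α - p j : ℝ) : T) := by
    intro j
    have h5 : (((p j : ℤ) : ℝ) : T) = 0 := by
      have : (((p j : ℤ) : ℝ) : T) = (p j) • ((1 : ℝ) : T) := by
        rw [← AddCircle.coe_zsmul, zsmul_eq_mul, mul_one]
      rw [this, AddCircle.coe_period, smul_zero]
    rw [AddCircle.coe_sub, h5, sub_zero, ← AddCircle.coe_zsmul, zsmul_eq_mul]
  have hlim : Tendsto (fun j => (q j : ℝ) * α - p j) atTop (𝓝 0) := by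
    refine squeeze_zero_norm (fun j => hpq j) ?_
    have h1 : Tendsto (fun j : ℕ => 1 / (((j + 1 : ℕ) : ℝ) + 1)) atTop (𝓝 0) := by
      have := tendsto_one_div_add_atTop_nhds_zero_nat (𝕜 := ℝ)
      exact this.comp (tendsto_add_atTop_nat 1)
    exact h1
  have hgrow : Tendsto q atTop atTop := by
    have h1 : ∀ j : ℕ, c * ((j : ℝ) + 2) ≤ q j := by
      intro j
      have h2 := ha (q j) (hq0 j).ne'
      rw [hqa] at h2
      have h3 : ‖(((q j : ℝ) * α - p j : ℝ) : T)‖ ≤ |(q j : ℝ) * α - p j| := by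
        rw [UnitAddCircle.norm_eq]
        have := round_le ((q j : ℝ) * α - p j) 0
        simpa using this
      have h4 := (h2.trans h3).trans (hpq j)
      have h5 : (0 : ℝ) < q j := by exact_mod_cast hq0 j
      rw [abs_of_pos h5, div_le_div_iff₀ h5 (by positivity)] at h4
      push_cast at h4
      linarith
    have h2 : Tendsto (fun j : ℕ => c * ((j : ℝ) + 2)) atTop atTop :=
      (tendsto_atTop_add_const_right _ 2 tendsto_natCast_atTop_atTop).const_mul_atTop hc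
    have h3 : Tendsto (fun j : ℕ => (q j : ℝ)) atTop atTop := tendsto_atTop_mono h1 h2
    exact tendsto_intCast_atTop_iff.1 h3
  refine isBesicovitch_of (continuous_ph hc ha) ?_ (tendsto_S hc ha) q
    (fun j t => ((-(t * ((q j : ℝ) * α - p j)) : ℝ) : T)) ?_ ?_ ?_ ?_ ?_ ?_
  · have h1 : Irrational (α / 1) := by rwa [div_one]
    exact AddCircle.denseRange_zsmul_coe_iff.2 h1
  · rw [Int.cofinite_eq]
    exact hgrow.mono_right le_sup_right
  · rw [Int.cofinite_eq]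
    exact (tendsto_neg_atTop_atBot.comp hgrow).mono_right le_sup_left
  · intro j
    exact (AddCircle.continuous_mk' 1).comp (by fun_prop)
  · intro j
    simp
  · intro j
    show ((-(1 * ((q j : ℝ) * α - p j)) : ℝ) : T) = -(q j • (α : T))
    rw [hqa, one_mul, AddCircle.coe_neg]
  · intro t ht
    have h1 : Tendsto (fun j => -(t j * ((q j : ℝ) * α - p j))) atTop (𝓝 0) := by
      rw [← neg_zero]
      refine Tendsto.neg ?_
      refine squeeze_zero_norm' (a := fun j => ‖(q j : ℝ) * α - p j‖) ?_ ?_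
      · filter_upwards [ht] with j hj
        rw [norm_mul, Real.norm_eq_abs (t j), abs_of_nonneg hj.1]
        have h2 := mul_le_mul_of_nonneg_right hj.2 (norm_nonneg ((q j : ℝ) * α - p j))
        linarith
      · have := hlim.norm
        rwa [norm_zero] at this
    have h2 := ((AddCircle.continuous_mk' (1 : ℝ)).tendsto 0).comp h1
    rw [map_zero] at h2
    exact h2

/-! ### an example -/

theorem bad_sqrt_two : Bad ((Real.sqrt 2 : ℝ) : T) (1 / 4) := by
  intro n hn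
  have hn1 : (1 : ℝ) ≤ |(n : ℝ)| := by
    have : 1 ≤ |n| := Int.one_le_abs hn
    exact_mod_cast this
  have hpos : 0 < |(n : ℝ)| := by linarith
  have h1 : n • ((Real.sqrt 2 : ℝ) : T) = ((n * Real.sqrt 2 : ℝ) : T) := by
    rw [← AddCircle.coe_zsmul, zsmul_eq_mul]
  rw [h1, UnitAddCircle.norm_eq]
  obtain ⟨m, hm⟩ : ∃ m : ℤ, m = round (n * Real.sqrt 2) := ⟨_, rfl⟩
  rw [← hm]
  have hhalf : |n * Real.sqrt 2 - m| ≤ 1 / 2 := by rw [hm]; exact abs_sub_round _
  have hs2 : Real.sqrt 2 * Real.sqrt 2 = 2 := Real.mul_self_sqrt (by norm_num)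
  have hs0 : 0 ≤ Real.sqrt 2 := Real.sqrt_nonneg _
  have hs1 : Real.sqrt 2 ≤ 3 / 2 := by
    rw [Real.sqrt_le_left (by norm_num)]; norm_num
  have hprod : (n * Real.sqrt 2 - m) * (n * Real.sqrt 2 + m) = ((2 * n ^ 2 - m ^ 2 : ℤ) : ℝ) := by
    push_cast
    have : (n : ℝ) * Real.sqrt 2 * (n * Real.sqrt 2) = 2 * n ^ 2 := by
      calc (n : ℝ) * Real.sqrt 2 * (n * Real.sqrt 2) = n ^ 2 * (Real.sqrt 2 * Real.sqrt 2) := by ring
        _ = 2 * n ^ 2 := by rw [hs2]; ring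
    nlinarith
  have hne : (2 * n ^ 2 - m ^ 2 : ℤ) ≠ 0 := by
    intro h0
    have h2 : ((m : ℝ) / n) ^ 2 = 2 := by
      have h3 : (m : ℝ) ^ 2 = 2 * n ^ 2 := by
        have : m ^ 2 = 2 * n ^ 2 := by linarith
        exact_mod_cast this
      have h4 : (n : ℝ) ≠ 0 := by exact_mod_cast hn
      rw [div_pow, h3]
      field_simp
    have h5 := irrational_sqrt_two
    apply h5
    refine ⟨|(m : ℚ) / n|, ?_⟩
    have h6 : ((|(m : ℚ) / n| : ℚ) : ℝ) = |(m : ℝ) / n| := by push_cast; rfl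
    rw [h6, ← h2, Real.sqrt_sq_eq_abs]
  have h7 : (1 : ℝ) ≤ |((2 * n ^ 2 - m ^ 2 : ℤ) : ℝ)| := by
    have : 1 ≤ |(2 * n ^ 2 - m ^ 2 : ℤ)| := Int.one_le_abs hne
    exact_mod_cast this
  rw [← hprod, abs_mul] at h7
  have h8 : |n * Real.sqrt 2 + m| ≤ 4 * |(n : ℝ)| := by
    have e1 : n * Real.sqrt 2 + m = 2 * (n * Real.sqrt 2) - (n * Real.sqrt 2 - m) := by ring
    rw [e1]
    refine (abs_sub _ _).trans ?_
    rw [abs_mul, abs_mul, abs_of_nonneg hs0, abs_two]
    nlinarith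
  have h9 : 0 ≤ |n * Real.sqrt 2 - m| := abs_nonneg _
  have h10 : 1 ≤ |n * Real.sqrt 2 - m| * (4 * |(n : ℝ)|) :=
    h7.trans (mul_le_mul_of_nonneg_left h8 h9)
  rw [div_le_iff₀ hpos]
  linarith

end Pool.Agent.K6.H72.HB
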